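import Mathlib
import Pool.Agent.H30.NoSeq

set_option autoImplicit false

namespace Pool.Agent.Results.MP_41ff45_gt.Levels

open Set Filter Topology

/-- `k`-covers. -/
def KCover {X : Type} [TopologicalSpace X] (U : Set (Set X)) : Prop :=
  (∀ O ∈ U, IsOpen O) ∧ ⋃₀ U = univ ∧ ∀ K, IsCompact K → ∃ O ∈ U, K ⊆ O

/-- Markov `k`-Menger spaces. -/
def MarkovMenger (X : Type) [TopologicalSpace X] : Prop :=
  ∃ σ : Set (Set X) → ℕ → Set (Set X), (∀ U n, KCover U → (σ U n).Finite ∧ σ U n ⊆ U) ∧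
    ∀ U : ℕ → Set (Set X), (∀ n, KCover (U n)) → KCover (⋃ n, σ (U n) n)

/-- Markov `k`-Rothberger spaces. -/
def MarkovRothberger (X : Type) [TopologicalSpace X] : Prop :=
  ∃ σ : Set (Set X) → ℕ → Set X, (∀ U n, KCover U → σ U n ∈ U) ∧
    ∀ U : ℕ → Set (Set X), (∀ n, KCover (U n)) → KCover (range fun n => σ (U n) n)

structure Y where
  l : ℕ
  y : Ultrafilter ℝ

instance : TopologicalSpace Y where
  IsOpen U := ∀ n y, ⟨n + 1, y⟩ ∈ U → ∀ᶠ z in 𝓝[≠] y, (⟨n, z⟩ : Y) ∈ U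
  isOpen_univ := by simp
  isOpen_inter := fun _ _ hs ht n y h => (hs n y h.1).and (ht n y h.2)
  isOpen_sUnion := fun _ hS n y ⟨W, hW, h⟩ => (hS W hW n y h).mono fun _ hz => ⟨W, hW, hz⟩

lemma cont : Continuous Y.y := ⟨fun _ hU _ _ h => nhdsWithin_le_nhds (hU.mem_nhds h)⟩

instance : T1Space Y := ⟨fun p => ⟨fun n y _ => by
  by_cases h : y = p.y
  · filter_upwards [self_mem_nhdsWithin] with z hz e
    exact hz (h ▸ congrArg Y.y e)
  · filter_upwards [nhdsWithin_le_nhds (isOpen_ne.mem_nhds h)] with z hz e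
    exact hz (congrArg Y.y e)⟩⟩

lemma low (m : ℕ) (p : Y) (h : p.l ≤ m) : IsOpen {q : Y | q.l < m ∨ q = p} := by
  rintro n y (h' | rfl) <;> exact Eventually.of_forall fun z => Or.inl (by simp at *; omega)

lemma step {K : Set Y} (hK : IsCompact K) (m : ℕ) (hF : (K ∩ {p | m + 1 ≤ p.l}).Finite) :
    {y | (⟨m, y⟩ : Y) ∈ K}.Finite := by
  by_contra hi
  let z : ℕ → Ultrafilter ℝ := fun k => (Set.Infinite.natEmbedding _ hi k).1
  have hz : Function.Injective z := Subtype.val_injective.comp (Set.Infinite.natEmbedding _ hi).injective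
  have key : ∀ c, MapClusterPt c atTop z → c ∈ Y.y '' (K ∩ {p | m + 1 ≤ p.l}) := by
    intro c hc
    obtain ⟨V, h1, h2⟩ := mapClusterPt_iff_ultrafilter.1 hc
    obtain ⟨p, hp, h3⟩ := hK.ultrafilter_le_nhds' (V.map fun k => (⟨m, z k⟩ : Y))
      (mem_map.2 (univ_mem' fun k => (Set.Infinite.natEmbedding _ hi k).2))
    refine ⟨p, ⟨hp, by_contra fun hh => ?_⟩, tendsto_nhds_unique ((cont.tendsto p).comp h3) h2⟩
    have h4 : ∀ᶠ k in V, (⟨m, z k⟩ : Y) ∈ {q : Y | q.l < m ∨ q = p} :=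
      h3 ((low m p (by simpa using hh)).mem_nhds (Or.inr rfl))
    rw [← Nat.cofinite_eq_atTop] at h1
    obtain ⟨k, a, b⟩ := (h4.and (h1 (hz.tendsto_cofinite.eventually (eventually_cofinite_ne p.y)))).exists
    rcases a with a | a
    · exact lt_irrefl _ a
    · exact b (congrArg Y.y a)
  obtain ⟨q, hq⟩ := exists_clusterPt_of_compactSpace (map z atTop)
  obtain ⟨W, h1, h2, h3⟩ := exists_mem_nhds_isClosed_subset (x := q)
    (((hF.image Y.y).subset (sdiff_subset (t := {q}))).isClosed.isOpen_compl.mem_nhds fun h => h.2 rfl)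
  have h4 : ∀ᶠ k in atTop, z k ≠ q := by
    rw [← Nat.cofinite_eq_atTop]
    exact hz.tendsto_cofinite.eventually (eventually_cofinite_ne q)
  obtain ⟨φ, hφ, h5⟩ := extraction_of_frequently_atTop
    ((mapClusterPt_iff_frequently.1 hq W h1).and_eventually h4)
  refine Pool.Agent.H30.NoSeq.noseq (y := z ∘ φ) (h2.isCompact.tendsto_nhds_of_unique_mapClusterPt
    (Eventually.of_forall fun k => (h5 k).1) fun c hc hc' => by_contra fun hh =>
      h3 hc ⟨key c (hc'.of_comp hφ.tendsto_atTop), hh⟩) fun k => (h5 k).2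

lemma bdd {K : Set Y} (hK : IsCompact K) : K.Finite := by
  obtain ⟨N, hN⟩ := hK.elim_directed_cover (fun n : ℕ => {q : Y | q.l < n})
    (fun n _ _ h => Eventually.of_forall fun z => Nat.lt_of_succ_lt h)
    (fun q _ => mem_iUnion.2 ⟨q.l + 1, Nat.lt_succ_self _⟩)
    (Monotone.directed_le fun a b h q hq => lt_of_lt_of_le hq h)
  have : ∀ d m, N ≤ m + d → (K ∩ {p | m ≤ p.l}).Finite := by
    intro d
    induction d with
    | zero => exact fun m h => finite_empty.subset fun p hp => absurd (hN hp.1) (not_lt.2 (le_trans h hp.2))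
    | succ d ih =>
      intro m h
      have h1 := ih (m + 1) (by omega)
      refine (h1.union ((step hK m h1).image (Y.mk m))).subset ?_
      rintro ⟨l, y⟩ ⟨a, b⟩
      rcases Nat.eq_or_lt_of_le b with rfl | e
      exacts [Or.inr ⟨y, a, rfl⟩, Or.inl ⟨a, e⟩]
  exact (this N 0 (by omega)).subset fun p hp => ⟨hp, Nat.zero_le _⟩

lemma conv (u : Ultrafilter Y) (n : ℕ) (h : ∀ᶠ p : Y in u, p.l < n) : ∃ p, (u : Filter Y) ≤ 𝓝 p := by
  rcases u.le_cofinite_or_eq_pure with h1 | ⟨a, rfl⟩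
  · obtain ⟨m, hm⟩ : ∃ m, ∀ᶠ p : Y in u, p.l = m := by
      obtain ⟨m, -, hm⟩ := (u.map Y.l).eq_pure_of_finite_mem (finite_Iio n) h
      exact ⟨m, show {m} ∈ u.map Y.l from hm ▸ rfl⟩
    obtain ⟨y, -, hy⟩ := isCompact_univ.ultrafilter_le_nhds' (u.map Y.y) univ_mem
    refine ⟨⟨m + 1, y⟩, (nhds_basis_opens _).ge_iff.2 ?_⟩
    rintro W ⟨a, b⟩
    have := b m y a
    rw [eventually_nhdsWithin_iff] at this
    filter_upwards [hm, hy this, h1 (eventually_cofinite_ne ⟨m, y⟩)]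
    rintro ⟨l, z⟩ rfl c d
    exact c fun e => d (congrArg (Y.mk l) e)
  · exact ⟨a, pure_le_nhds a⟩

lemma rel {U : Set (Set Y)} (hU : KCover U) (n : ℕ) : ∃ F ⊆ U, F.Finite ∧
    ∀ t : Fin n → Y, (∀ i, (t i).l < n) → ∃ O ∈ F, range t ⊆ O := by
  classical
  by_contra hh
  push Not at hh
  choose t h1 h2 using fun F : Finset U => hh (Subtype.val '' (F : Set U))
    (by rintro _ ⟨O, -, rfl⟩; exact O.2) (F.finite_toSet.image _)
  let V := Ultrafilter.of (atTop : Filter (Finset U))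
  choose p hp using fun i => conv (V.map fun F => t F i) n (mem_map.2 (univ_mem' fun F => h1 F i))
  obtain ⟨O, hO, h⟩ := hU.2.2 _ (finite_range p).isCompact
  have a : ∀ᶠ F in V, ∀ i, t F i ∈ O :=
    eventually_all.2 fun i => hp i ((hU.1 O hO).mem_nhds (h ⟨i, rfl⟩))
  obtain ⟨F, b, c⟩ := (a.and (Ultrafilter.of_le _ (eventually_ge_atTop {⟨O, hO⟩}))).exists
  exact h2 F O ⟨_, c (Finset.mem_singleton_self _), rfl⟩ (range_subset_iff.2 b)

theorem result : ∃ (X : Type) (_ : TopologicalSpace X), T1Space X ∧ MarkovMenger X ∧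
    ¬ MarkovRothberger X := by
  classical
  refine ⟨Y, inferInstance, inferInstance, ?_, ?_⟩
  · choose! σ h1 h2 h3 using fun U (hU : KCover U) n => rel hU n
    refine ⟨σ, fun U n h => ⟨h2 U h n, h1 U h n⟩, fun U hU => ?_⟩
    have key : ∀ K : Set Y, IsCompact K → ∃ O ∈ ⋃ n, σ (U n) n, K ⊆ O := by
      intro K hK
      have hf := (bdd hK).insert ⟨0, pure 0⟩
      obtain ⟨N, hN⟩ := (hf.image Y.l).bddAbove
      obtain ⟨n, e, -, he⟩ := hf.fin_param
      let t : Fin (n + N + 1) → Y := fun i => if h : i.1 < n then e ⟨i, h⟩ else ⟨0, pure 0⟩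
      obtain ⟨O, hO, h⟩ := h3 _ (hU _) (n + N + 1) t fun i => by
        have : t i ∈ insert ⟨0, pure 0⟩ K := by
          simp only [t]
          split_ifs
          exacts [he ▸ mem_range_self _, Or.inl rfl]
        have := hN ⟨_, this, rfl⟩
        omega
      refine ⟨O, mem_iUnion.2 ⟨_, hO⟩, fun y hy => h ?_⟩
      obtain ⟨i, rfl⟩ : y ∈ range e := he ▸ Or.inr hy
      exact ⟨⟨i, by omega⟩, dif_pos i.2⟩
    refine ⟨fun O hO => ?_, eq_univ_of_forall fun y => ?_, key⟩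
    · obtain ⟨n, hn⟩ := mem_iUnion.1 hO
      exact (hU n).1 O (h1 _ (hU n) n hn)
    · obtain ⟨O, a, b⟩ := key _ isCompact_singleton
      exact ⟨O, a, b rfl⟩
  · rintro ⟨σ, h1, h2⟩
    have hf : ∀ n, {y | ∀ U, KCover U → y ∈ σ U n}.Finite := by
      intro n
      by_contra hi
      have key : ∀ K : Set Y, IsCompact K → ∃ O ∈ (fun r => {r}ᶜ) '' {y | ∀ U, KCover U → y ∈ σ U n},
          K ⊆ O := fun K hK => by
        obtain ⟨r, a, b⟩ := Set.Infinite.exists_notMem_finite hi (bdd hK)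
        exact ⟨_, ⟨r, a, rfl⟩, subset_compl_singleton_iff.2 b⟩
      have hc : KCover ((fun r => {r}ᶜ) '' {y | ∀ U, KCover U → y ∈ σ U n}) :=
        ⟨by rintro _ ⟨r, -, rfl⟩; exact isOpen_compl_singleton, eq_univ_of_forall fun y =>
          (key _ isCompact_singleton).imp fun O h => ⟨h.1, h.2 rfl⟩, key⟩
      obtain ⟨r, a, b⟩ := h1 _ n hc
      have := a _ hc
      rw [← b] at this
      exact this rfl
    have : ∃ y, ∀ n, ∃ U, KCover U ∧ y ∉ σ U n := by
      by_contra hh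
      push Not at hh
      have hc : (univ : Set Y).Countable := (countable_iUnion fun n => (hf n).countable).mono
        fun y _ => mem_iUnion.2 (hh y)
      exact Cardinal.not_countable_real ((hc.preimage (f := fun r : ℝ => (⟨0, pure r⟩ : Y))
        fun a b h => Ultrafilter.pure_injective (congrArg Y.y h)).mono fun _ _ => trivial)
    obtain ⟨y, hy⟩ := this
    choose U a b using hy
    obtain ⟨_, ⟨n, rfl⟩, h⟩ := eq_univ_iff_forall.1 (h2 U a).2.1 y
    exact b n h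

end Pool.Agent.Results.MP_41ff45_gt.Levels
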